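import Pool.Agent.helper96.SV.SpecA

set_option autoImplicit false

namespace Pool.Agent.SVA

open Polynomial Module

theorem BLD_deg {D e : ℕ} {φ G : ℂ[X]} (hm : φ.Monic) (hd : φ.natDegree = D) :
    (φ * G).degree < ((e + D : ℕ) : WithBot ℕ) ↔ G.degree < (e : WithBot ℕ) := by
  by_cases hG : G = 0
  · rw [hG, mul_zero]
    simp [WithBot.bot_lt_coe]
  · have h1 : φ * G ≠ 0 := mul_ne_zero hm.ne_zero hG
    rw [degree_eq_natDegree h1, degree_eq_natDegree hG, Nat.cast_lt, Nat.cast_lt,
      natDegree_mul hm.ne_zero hG, hd]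
    omega

theorem BLD (hBLK : BLK_stmt) (hPHD : PHD_stmt) : BLD_stmt := by
  intro K _ _ _ m q hq e l
  let T : (Bx m → ℂ[X]) →ₗ[ℂ] (Bx m → ℂ[X]) :=
    { toFun := fun G β => phi q β * G β
      map_add' := by
        intro F G
        funext β
        show phi q β * (F β + G β) = phi q β * F β + phi q β * G β
        ring
      map_smul' := by
        intro s G
        funext β
        show phi q β * (s • G β) = s • (phi q β * G β)
        rw [mul_smul_comm] }
  have hT : Function.Injective T := by
    intro F G h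
    funext β
    have h1 : phi q β * F β = phi q β * G β := congrFun h β
    exact mul_left_cancel₀ (hPHD q β).1.ne_zero h1
  have hmap : NN (e + DD m) (blkL q ++ l) = (NF e (phi q) l).map T := by
    ext F
    constructor
    · intro hF
      obtain ⟨h1, h2⟩ := mem_NN.1 hF
      have h3 : ∀ β, phi q β ∣ F β :=
        (hBLK q hq F).1 fun P hP => h2 P (List.mem_append_left _ hP)
      choose G hG using h3
      have hFG : (fun β => phi q β * G β) = F := funext fun β => (hG β).symm
      refine Submodule.mem_map.2 ⟨G, mem_NF.2 ⟨mem_WW.2 fun β => ?_, fun P hP => ?_⟩, hFG⟩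
      · have h4 := h1 β
        rw [hG β] at h4
        exact (BLD_deg (hPHD q β).1 (hPHD q β).2).1 h4
      · rw [hFG]
        exact h2 P (List.mem_append_right _ hP)
    · intro hF
      obtain ⟨G, hG, rfl⟩ := Submodule.mem_map.1 hF
      obtain ⟨h1, h2⟩ := mem_NF.1 hG
      refine mem_NN.2 ⟨fun β => ?_, fun P hP => ?_⟩
      · exact (BLD_deg (hPHD q β).1 (hPHD q β).2).2 (mem_WW.1 h1 β)
      · rcases List.mem_append.1 hP with h3 | h3
        · exact (hBLK q hq _).2 (fun β => dvd_mul_right _ _) P h3
        · exact h2 P h3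
  rw [hmap]
  exact (LinearEquiv.finrank_eq (Submodule.equivMapOfInjective T hT (NF e (phi q) l))).symm

end Pool.Agent.SVA
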