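import Pool.Agent.helper96.SV.SpecA

set_option autoImplicit false

namespace Pool.Agent.SVA

open Polynomial Module Pool.Agent.SV

theorem BR3 (hBR1 : BR1_stmt) (hBR2 : BR2_stmt) : BR3_stmt := by
  intro k n d l hl hd L
  have hmem : ∀ f : ↥(Sng (Sigma.fst : Var n → Fin k) d (fun j : Fin L.length => toPt n l (L.get j))),
      (fun β => fr n l f.1 β) ∈ NN (d l + 1) L := by
    intro f
    obtain ⟨h1, h2⟩ := mem_Sng.1 f.2
    refine mem_NN.2 ⟨fun β => (hBR1 k n d l hl hd f.1 h1).1 β, fun P hP => ?_⟩
    obtain ⟨j, hj⟩ := List.mem_iff_get.1 hP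
    refine hBR2 k n d l hl hd f.1 h1 P fun v => ?_
    have h3 := h2 j v
    rw [hj] at h3
    exact h3
  let T : ↥(Sng (Sigma.fst : Var n → Fin k) d (fun j : Fin L.length => toPt n l (L.get j))) →ₗ[ℂ]
      ↥(NN (d l + 1) L) :=
    { toFun := fun f => ⟨fun β => fr n l f.1 β, hmem f⟩
      map_add' := by
        intro f g
        refine Subtype.ext (funext fun β => ?_)
        show fr n l (f.1 + g.1) β = fr n l f.1 β + fr n l g.1 β
        unfold fr
        exact map_add _ _ _
      map_smul' := by
        intro s f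
        refine Subtype.ext (funext fun β => ?_)
        show fr n l (s • f.1) β = s • fr n l f.1 β
        unfold fr
        exact map_smul _ _ _ }
  refine LinearMap.finrank_le_finrank_of_injective (f := T) ?_
  rw [← LinearMap.ker_eq_bot, LinearMap.ker_eq_bot']
  intro f hf
  refine Subtype.ext ?_
  refine (hBR1 k n d l hl hd f.1 (mem_Sng.1 f.2).1).2.2 fun β => ?_
  have h1 := congrArg Subtype.val hf
  exact congrFun h1 β

end Pool.Agent.SVA
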