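import Pool.Agent.helper80.SV.Spec3

set_option autoImplicit false

namespace Pool.Agent.SV

open MvPolynomial Module

theorem EXZ (hZB : ZB_stmt) (h20 : E20_stmt) (h10 : E10_stmt) (h11 : E11_stmt) (hTHR : THR_stmt) :
    EXZ_stmt := by
  refine ⟨?_, ?_, ?_, ?_⟩
  · intro m e hm he
    have hc : (![2, (e : ℤ)] : Fin 2 → ℤ) = fun i => ((![2, e] i : ℕ) : ℤ) := by
      funext i
      fin_cases i <;> simp
    rw [hc, ((hZB 2 ![m, 1]).1 ![2, e]).1]
    exact h20 m e hm he
  · intro m e hm he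
    have hc : (![1, (e : ℤ)] : Fin 2 → ℤ) = fun i => ((![1, e] i : ℕ) : ℤ) := by
      funext i
      fin_cases i <;> simp
    rw [hc, ((hZB 2 ![m, 1]).1 ![1, e]).1]
    exact h10 m e hm he
  · intro a b e ha hb he
    have hc : (![1, 1, (e : ℤ)] : Fin 3 → ℤ) = fun i => ((![1, 1, e] i : ℕ) : ℤ) := by
      funext i
      fin_cases i <;> simp
    rw [hc, ((hZB 3 ![a, b, 1]).1 ![1, 1, e]).1]
    exact h11 a b e ha hb he
  · intro k n d hk hn hd j hj
    rw [((hZB k n).1 d).1]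
    exact hTHR k n d hk hn hd j hj

end Pool.Agent.SV
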