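import Pool.Agent.helper96.SV.SpecA

set_option autoImplicit false

namespace Pool.Agent.SVA

open Polynomial Module

section FVR
variable {K : Type} [Fintype K] [DecidableEq K] {m : K → ℕ}

/-- value at `p` paired with `z` -/
noncomputable def FVR_e (p : ℂ) (z : Bx m → ℂ) : (Bx m → ℂ[X]) →ₗ[ℂ] ℂ where
  toFun H := pr (ev p H) z
  map_add' H G := by rw [ev_add, pr_add_left]
  map_smul' s H := by rw [ev_smul, pr_smul_left, RingHom.id_apply, smul_eq_mul]

/-- derivative at `p` paired with `z` -/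
noncomputable def FVR_d (p : ℂ) (z : Bx m → ℂ) : (Bx m → ℂ[X]) →ₗ[ℂ] ℂ where
  toFun H := pr (dv p H) z
  map_add' H G := by rw [dv_add, pr_add_left]
  map_smul' s H := by rw [dv_smul, pr_smul_left, RingHom.id_apply, smul_eq_mul]

theorem FVR_sub_left (a b z : Bx m → ℂ) (s t : ℂ) :
    pr (fun β => s * a β + t * b β) z = s * pr a z + t * pr b z := by
  unfold pr
  rw [Finset.mul_sum, Finset.mul_sum, ← Finset.sum_add_distrib]
  exact Finset.sum_congr rfl fun β _ => by ring

end FVR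

theorem FVR (hTEN : TEN_stmt) : FVR_stmt := by
  intro K _ _ _ m J _ Q z c t₀ hQ hz
  obtain ⟨n, hn⟩ : ∃ n, DD m = n + 2 := ⟨∑ i, m i, by unfold DD; ring⟩
  refine ⟨∑ j, (((((Q j).2 - t₀) ^ DD m)⁻¹ : ℂ) • FVR_e (Q j).2 (z j) +
    c j • (((((Q j).2 - t₀) ^ DD m)⁻¹ : ℂ) • FVR_d (Q j).2 (ten (Q j).1) -
      (((DD m : ℂ) * ((Q j).2 - t₀) ^ (DD m - 1)) / (((Q j).2 - t₀) ^ DD m) ^ 2) •
        FVR_e (Q j).2 (ten (Q j).1))), ?_, ?_, ?_⟩
  · intro H hH
    rw [LinearMap.sum_apply]
    refine Finset.sum_eq_zero fun j _ => ?_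
    obtain ⟨h1, h2⟩ := mem_Sg.1 (hH j)
    have h3 : FVR_e (Q j).2 (z j) H = 0 := h1 _ (hz j)
    have h4 : FVR_e (Q j).2 (ten (Q j).1) H = 0 := h1 _ ((hTEN (m := m)).2.1 _)
    have h5 : FVR_d (Q j).2 (ten (Q j).1) H = 0 := h2
    simp only [LinearMap.add_apply, LinearMap.smul_apply, LinearMap.sub_apply, h3, h4, h5,
      smul_zero, sub_zero, add_zero]
  · intro G
    rw [LinearMap.sum_apply]
    refine Finset.sum_congr rfl fun j _ => ?_
    obtain ⟨s, hs⟩ : ∃ s, s = (Q j).2 - t₀ := ⟨_, rfl⟩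
    have hs0 : s ≠ 0 := by rw [hs]; exact sub_ne_zero.2 (hQ j)
    have he : ∀ w : Bx m → ℂ, FVR_e (Q j).2 w (fun β => (X - C t₀) ^ DD m * G β) =
        s ^ (n + 2) * pr (ev (Q j).2 G) w := by
      intro w
      show pr (ev (Q j).2 (fun β => (X - C t₀) ^ DD m * G β)) w = _
      have h1 : ev (Q j).2 (fun β => (X - C t₀) ^ DD m * G β) =
          fun β => s ^ (n + 2) * ev (Q j).2 G β + 0 * ev (Q j).2 G β := by
        funext β
        simp only [ev, eval_mul, eval_pow, eval_sub, eval_X, eval_C]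
        rw [hn, hs]
        ring
      rw [h1, FVR_sub_left]
      ring
    have hd : ∀ w : Bx m → ℂ, FVR_d (Q j).2 w (fun β => (X - C t₀) ^ DD m * G β) =
        ((n : ℂ) + 2) * s ^ (n + 1) * pr (ev (Q j).2 G) w + s ^ (n + 2) * pr (dv (Q j).2 G) w := by
      intro w
      show pr (dv (Q j).2 (fun β => (X - C t₀) ^ DD m * G β)) w = _
      have h1 : dv (Q j).2 (fun β => (X - C t₀) ^ DD m * G β) =
          fun β => (((n : ℂ) + 2) * s ^ (n + 1)) * ev (Q j).2 G β + s ^ (n + 2) * dv (Q j).2 G β := by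
        funext β
        simp only [ev, dv, derivative_mul, derivative_X_sub_C_pow, eval_add, eval_mul, eval_pow,
          eval_sub, eval_X, eval_C, hn]
        rw [hs]
        simp
      rw [h1, FVR_sub_left]
    simp only [LinearMap.add_apply, LinearMap.smul_apply, LinearMap.sub_apply, he, hd, smul_eq_mul]
    rw [← hs, hn]
    have h2 : n + 2 - 1 = n + 1 := by omega
    rw [h2]
    push_cast
    have hsn : s ^ n ≠ 0 := pow_ne_zero _ hs0
    rw [show s ^ (n + 2) = s ^ n * s ^ 2 by ring, show s ^ (n + 1) = s ^ n * s by ring]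
    field_simp
    ring
  · intro M F
    rw [LinearMap.sum_apply, ← Finset.sum_neg_distrib]
    refine Finset.sum_congr rfl fun j _ => ?_
    obtain ⟨s, hs⟩ : ∃ s, s = (Q j).2 - t₀ := ⟨_, rfl⟩
    have hs0 : s ≠ 0 := by rw [hs]; exact sub_ne_zero.2 (hQ j)
    have h2 : DD m - 1 = n + 1 := by omega
    have he : ∀ w : Bx m → ℂ, FVR_e (Q j).2 w
        (fun β => - (C (M β) * (X - C t₀) ^ (DD m - 1)) * F β) =
        - s ^ (n + 1) * pr (fun β => M β * ev (Q j).2 F β) w := by
      intro w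
      show pr (ev (Q j).2 (fun β => - (C (M β) * (X - C t₀) ^ (DD m - 1)) * F β)) w = _
      have h1 : ev (Q j).2 (fun β => - (C (M β) * (X - C t₀) ^ (DD m - 1)) * F β) =
          fun β => (- s ^ (n + 1)) * (M β * ev (Q j).2 F β) + 0 * (M β * ev (Q j).2 F β) := by
        funext β
        simp only [ev, eval_neg, eval_mul, eval_pow, eval_sub, eval_X, eval_C]
        rw [h2, hs]
        ring
      rw [h1, FVR_sub_left]
      ring
    have hd : ∀ w : Bx m → ℂ, FVR_d (Q j).2 w
        (fun β => - (C (M β) * (X - C t₀) ^ (DD m - 1)) * F β) =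
        - (((n : ℂ) + 1) * s ^ n) * pr (fun β => M β * ev (Q j).2 F β) w +
          (- s ^ (n + 1)) * pr (fun β => M β * dv (Q j).2 F β) w := by
      intro w
      show pr (dv (Q j).2 (fun β => - (C (M β) * (X - C t₀) ^ (DD m - 1)) * F β)) w = _
      have h1 : dv (Q j).2 (fun β => - (C (M β) * (X - C t₀) ^ (DD m - 1)) * F β) =
          fun β => (- (((n : ℂ) + 1) * s ^ n)) * (M β * ev (Q j).2 F β) +
            (- s ^ (n + 1)) * (M β * dv (Q j).2 F β) := by
        funext β
        simp only [ev, dv, derivative_mul, derivative_neg, derivative_C, derivative_X_sub_C_pow,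
          eval_add, eval_neg, eval_mul, eval_pow, eval_sub, eval_X, eval_C, h2]
        rw [hs]
        simp
        ring
      rw [h1, FVR_sub_left]
    simp only [LinearMap.add_apply, LinearMap.smul_apply, LinearMap.sub_apply, he, hd, smul_eq_mul]
    rw [← hs, h2, hn]
    push_cast
    have hsn : s ^ n ≠ 0 := pow_ne_zero _ hs0
    rw [show s ^ (n + 2) = s ^ n * s ^ 2 by ring, show s ^ (n + 1) = s ^ n * s by ring]
    field_simp
    ring

end Pool.Agent.SVA
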