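import Pool.Agent.helper65.SV.SpecE

set_option autoImplicit false

namespace Pool.Agent.SV

open Module

theorem PCG_adm {K : Type} [Fintype K] [DecidableEq K] {n : K → ℕ} (hn : ∀ i, 1 ≤ n i) (γ : Cell n)
    (h2 : 2 ≤ hammingNorm γ) (h : 2 * hammingNorm γ < Fintype.card K + 2) : γ ∈ Adm n := by
  refine ⟨h2, ?_⟩
  have hcard : (Finset.univ.filter (fun i => γ i = 0)).card + hammingNorm γ = Fintype.card K := by
    have h1 : hammingNorm γ = (Finset.univ.filter (fun i => ¬ γ i = 0)).card := rfl
    rw [h1, Finset.card_filter_add_card_filter_not]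
    exact Finset.card_univ
  have hsum : ((Finset.univ.filter (fun i => γ i = 0)).card : ℤ) ≤
      ∑ i ∈ Finset.univ.filter (fun i => γ i = 0), (n i : ℤ) := by
    have : ∑ i ∈ Finset.univ.filter (fun i => γ i = 0), (1 : ℤ) ≤
        ∑ i ∈ Finset.univ.filter (fun i => γ i = 0), (n i : ℤ) :=
      Finset.sum_le_sum fun i _ => by exact_mod_cast hn i
    simpa using this
  unfold lamE
  omega

theorem PCG_norm {K : Type} [Fintype K] [DecidableEq K] {n : K → ℕ} (γ : Cell n) (A : Finset K)
    (h : ∀ i, γ i ≠ 0 ↔ i ∈ A) : hammingNorm γ = A.card := by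
  have h1 : hammingNorm γ = (Finset.univ.filter (fun i => γ i ≠ 0)).card := rfl
  rw [h1]
  congr 1
  ext i
  simp [h i]

theorem PCG_two {K : Type} [Fintype K] [DecidableEq K] {n : K → ℕ} (hn : ∀ i, 1 ≤ n i)
    (hK : 3 ≤ Fintype.card K) (i j : K) (hij : i ≠ j) (a : ZMod (n i + 1)) (b : ZMod (n j + 1))
    (ha : a ≠ 0) (hb : b ≠ 0) :
    (Pi.single i a + Pi.single j b : Cell n) ∈ AddSubgroup.closure (Adm n) := by
  refine AddSubgroup.subset_closure ?_
  have hN : hammingNorm (Pi.single i a + Pi.single j b : Cell n) = ({i, j} : Finset K).card := by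
    refine PCG_norm _ _ fun k => ?_
    simp only [Pi.add_apply, Finset.mem_insert, Finset.mem_singleton]
    by_cases h1 : k = i
    · subst h1
      simp [Pi.single_eq_of_ne hij, ha]
    · by_cases h2 : k = j
      · subst h2
        simp [Pi.single_eq_of_ne h1, hb]
      · simp [Pi.single_eq_of_ne h1, Pi.single_eq_of_ne h2, h1, h2]
  rw [Finset.card_pair hij] at hN
  exact PCG_adm hn _ (by omega) (by omega)

theorem PCG_three {K : Type} [Fintype K] [DecidableEq K] {n : K → ℕ} (hn : ∀ i, 1 ≤ n i)
    (hK : 5 ≤ Fintype.card K) (i j k : K) (hij : i ≠ j) (hik : i ≠ k) (hjk : j ≠ k)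
    (a : ZMod (n i + 1)) (b : ZMod (n j + 1)) (c : ZMod (n k + 1))
    (ha : a ≠ 0) (hb : b ≠ 0) (hc : c ≠ 0) :
    (Pi.single i a + (Pi.single j b + Pi.single k c) : Cell n) ∈ AddSubgroup.closure (Adm n) := by
  refine AddSubgroup.subset_closure ?_
  have hN : hammingNorm (Pi.single i a + (Pi.single j b + Pi.single k c) : Cell n) =
      ({i, j, k} : Finset K).card := by
    refine PCG_norm _ _ fun l => ?_
    simp only [Pi.add_apply, Finset.mem_insert, Finset.mem_singleton]
    by_cases h1 : l = i
    · subst h1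
      simp [Pi.single_eq_of_ne hij, Pi.single_eq_of_ne hik, ha]
    · by_cases h2 : l = j
      · subst h2
        simp [Pi.single_eq_of_ne h1, Pi.single_eq_of_ne hjk, hb]
      · by_cases h3 : l = k
        · subst h3
          simp [Pi.single_eq_of_ne h1, Pi.single_eq_of_ne h2, hc]
        · simp [Pi.single_eq_of_ne h1, Pi.single_eq_of_ne h2, Pi.single_eq_of_ne h3, h1, h2, h3]
  rw [Finset.card_eq_three.2 ⟨i, j, k, hij, hik, hjk, rfl⟩] at hN
  exact PCG_adm hn _ (by omega) (by omega)

theorem PCG : PCG_stmt := by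
  intro K _ _ n hK hn hor
  have hone : ∀ i, (1 : ZMod (n i + 1)) ≠ 0 := by
    intro i
    haveI : Fact (1 < n i + 1) := ⟨by have := hn i; omega⟩
    exact one_ne_zero
  have hall : ∀ i, (Pi.single i 1 : Cell n) ∈ AddSubgroup.closure (Adm n) := by
    rcases hor with ⟨i, hi⟩ | h5
    · have htwo : (2 : ZMod (n i + 1)) ≠ 0 := by
        intro h
        have h1 : ((2 : ℕ) : ZMod (n i + 1)) = 0 := by exact_mod_cast h
        rw [ZMod.natCast_eq_zero_iff] at h1
        have := Nat.le_of_dvd (by norm_num) h1
        omega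
      obtain ⟨j, hj⟩ : ∃ j, j ≠ i := by
        by_contra hc
        push Not at hc
        have : Fintype.card K ≤ 1 := Fintype.card_le_one_iff.2 fun a b => by rw [hc a, hc b]
        omega
      have hi' : (Pi.single i 1 : Cell n) ∈ AddSubgroup.closure (Adm n) := by
        have h1 := PCG_two hn hK i j hj.symm 2 1 htwo (hone j)
        have h2 := PCG_two hn hK i j hj.symm 1 1 (hone i) (hone j)
        have h3 := AddSubgroup.sub_mem _ h1 h2
        have h4 : (Pi.single i 2 + Pi.single j 1 : Cell n) - (Pi.single i 1 + Pi.single j 1) =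
            Pi.single i 1 := by
          rw [add_sub_add_right_eq_sub, ← Pi.single_sub]
          norm_num
        rwa [h4] at h3
      intro l
      by_cases hl : l = i
      · rw [hl]; exact hi'
      · have h2 := PCG_two hn hK i l (Ne.symm hl) 1 1 (hone i) (hone l)
        have h3 := AddSubgroup.sub_mem _ h2 hi'
        rwa [add_sub_cancel_left] at h3
    · intro i
      obtain ⟨j, hj⟩ : ∃ j, j ∉ ({i} : Finset K) := by
        by_contra hc
        push Not at hc
        have h1 : (Finset.univ : Finset K) ⊆ {i} := fun x _ => hc x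
        have h2 := Finset.card_le_card h1
        rw [Finset.card_univ, Finset.card_singleton] at h2
        omega
      obtain ⟨k, hk⟩ : ∃ k, k ∉ ({i, j} : Finset K) := by
        by_contra hc
        push Not at hc
        have h1 : (Finset.univ : Finset K) ⊆ {i, j} := fun x _ => hc x
        have h2 := (Finset.card_le_card h1).trans Finset.card_le_two
        rw [Finset.card_univ] at h2
        omega
      simp only [Finset.mem_insert, Finset.mem_singleton, not_or] at hj hk
      have h1 := PCG_three hn h5 i j k (Ne.symm hj) (Ne.symm hk.1) (Ne.symm hk.2) 1 1 1 (hone i)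
        (hone j) (hone k)
      have h2 := PCG_two hn hK j k (Ne.symm hk.2) 1 1 (hone j) (hone k)
      have h3 := AddSubgroup.sub_mem _ h1 h2
      rwa [add_sub_cancel_right] at h3
  rw [eq_top_iff]
  intro x _
  have hx : x = ∑ i, Pi.single i (x i) := (Finset.univ_sum_single x).symm
  rw [hx]
  refine AddSubgroup.sum_mem _ fun i _ => ?_
  have h1 : (Pi.single i (x i) : Cell n) = (x i).val • Pi.single i 1 := by
    rw [← Pi.single_smul]
    congr 1
    simp
  rw [h1]
  exact AddSubgroup.nsmul_mem _ (hall i) _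

end Pool.Agent.SV
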